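import Pool.Agent.N102.EC.Main
import Pool.Agent.N102.FL.LPts
import Pool.Agent.N102.FL.Stg

/-!
Project EC (helper102): existential closedness along leveled systems.
-/

set_option autoImplicit false
set_option linter.unusedVariables false
set_option linter.unusedSectionVars false

universe u

open Pool.Agent.TH214.SD Pool.Agent.W418.LU2 Pool.Agent.H176.DT Pool.Agent.N102.FL IsLocalRing

namespace Pool.Agent.N102.EC

lemma nonunit_of_lt {K : Type u} [Field K] (V : ValuationSubring K) {a : K}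
    (h : V.valuation a < 1) : ¬ (a ≠ 0 ∧ a⁻¹ ∈ V) := by
  rintro ⟨h0, h1⟩
  have h2 := (V.valuation_le_one_iff _).2 h1
  rw [map_inv₀] at h2
  have h3 : V.valuation a ≠ 0 := (Valuation.ne_zero_iff _).2 h0
  have h4 : V.valuation a * (V.valuation a)⁻¹ < 1 :=
    mul_lt_one_of_lt_of_le h h2
  rw [mul_inv_cancel₀ h3] at h4
  exact lt_irrefl _ h4

/-- A field with a regular stage. -/
theorem ec_of_stage (h1 : S_DVR.{u}) (h2 : S_QUOT.{u}) {k K : Type u} [Field k] [Field K]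
    [Algebra k K] (hk : ExClosed k (LaurentSeries k)) (V : ValuationSubring K)
    (hV : ∀ a ∈ V, ∃ c : k, V.valuation (a - algebraMap k K c) < 1)
    (A : Subring K) (T : Set K) {n : ℕ} (X : Fin n → K) (hSt : St V A T X)
    (hkA : ∀ c : k, algebraMap k K c ∈ A)
    (hfr : ∀ w : K, ∃ a ∈ A, ∃ b ∈ A, b ≠ 0 ∧ w = a * b⁻¹) :
    ExClosed k K := by
  have hreg : RegP V.toSubring (PP V A T) X := hSt.reg
  have hAP : A ≤ PP V A T := fun a ha => le_lo _ _ (Subring.subset_closure (Or.inl ha))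
  have hR := hreg.reg
  refine ec_of_regular h1 h2 hk (PP V A T) hreg.reg (fun c => hAP (hkA c)) (fun w => ?_)
    fun a => ?_
  · obtain ⟨a, ha, b, hb, h⟩ := hfr w
    exact ⟨a, hAP ha, b, hAP hb, h⟩
  · obtain ⟨c, hc⟩ := hV a (hreg.PA a.2)
    refine ⟨c, ?_⟩
    rw [hreg.mem_max]
    exact nonunit_of_lt V hc

section main

variable {p : ℕ} [Fact p.Prime] {F k E K : Type u} [Field F] [PerfectField F] [CharP F p]
  [Field k] [Field E] [Field K] [Algebra F E] [Algebra F K] [Algebra k E] [Algebra k K]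
  [Algebra E K] [IsScalarTower F E K] [IsScalarTower k E K] {h s n q c : ℕ}
  {v : Fin h → E} {e : Fin s → ℕ} {z : Fin s → K} {x : Fin n → K}
  {G : Fin q → (Fin (h + s) ⊕ Fin n → ℤ) →₀ F}

/-- The assembly. -/
theorem ec_core (h1 : S_DVR.{u}) (h2 : S_QUOT.{u}) (hsys : S_SYS.{u}) (hstg : S_STG.{u})
    (hk : ExClosed k (LaurentSeries k))
    (hB : IsLeveledSystemOver (E := E) p c v e z x G) (V : ValuationSubring K)
    (hFV : ∀ a : F, algebraMap F K a ∈ V)
    (hV : ∀ a ∈ V, ∃ c : k, V.valuation (a - algebraMap k K c) < 1)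
    (R : Subring E) [IsNoetherianRing R]
    (hfr : ∀ w : E, ∃ a ∈ R, ∃ b ∈ R, b ≠ 0 ∧ w = a * b⁻¹)
    (hkR : ∀ c : k, algebraMap k E c ∈ R)
    (hRV : ∀ a ∈ R, algebraMap E K a ∈ V) (hLU : LogUnif (V.comap (algebraMap E K)) R) :
    ExClosed k K := by
  classical
  obtain ⟨Θ, _, y, 𝒮, hy, hgen, hok, hc0, htr, -, -, -⟩ :=
    exists_system hsys hB V hFV 0 Fin.elim0 (fun i => i.elim0) (fun i => i.elim0)
  let Gen : Set K := Set.range fun θ => if y θ ∈ V then y θ else (y θ)⁻¹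
  let A := Subring.closure ((R.map (algebraMap E K) : Set K) ∪ Gen)
  have hGenA : ∀ θ, (if y θ ∈ V then y θ else (y θ)⁻¹) ∈ A := fun θ =>
    Subring.subset_closure (Or.inr ⟨θ, rfl⟩)
  have hRA : ∀ r ∈ R, algebraMap E K r ∈ A := fun r hr =>
    Subring.subset_closure (Or.inl ⟨r, hr, rfl⟩)
  have hAV : A ≤ V.toSubring := by
    rw [Subring.closure_le]
    rintro w (⟨r, hr, rfl⟩ | ⟨θ, rfl⟩)
    · exact hRV r hr
    · change (if y θ ∈ V then y θ else (y θ)⁻¹) ∈ V
      split_ifs with h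
      · exact h
      · exact (V.mem_or_inv_mem (y θ)).resolve_left h
  have hbθ : ∀ θ, ∃ b ∈ A, Mon E y b ∧ b * y θ ∈ A := by
    intro θ
    by_cases h : y θ ∈ V
    · refine ⟨1, A.one_mem, Mon.one, ?_⟩
      have h3 := hGenA θ
      rw [if_pos h] at h3
      rw [one_mul]
      exact h3
    · refine ⟨(y θ)⁻¹, ?_, (Mon.of θ).inv, ?_⟩
      · have h3 := hGenA θ
        rw [if_neg h] at h3
        exact h3
      · rw [inv_mul_cancel₀ (hy θ)]
        exact A.one_mem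
  obtain ⟨T, n', X, hSt, -⟩ := hstg E K V R hfr hRV hLU Θ y hy hgen 𝒮 hok hc0 htr A Gen
    (Set.finite_range _) (by
      rintro _ ⟨θ, rfl⟩
      change Mon E y (if y θ ∈ V then y θ else (y θ)⁻¹)
      split_ifs
      · exact Mon.of θ
      · exact (Mon.of θ).inv) rfl hAV hbθ ∅ Set.finite_empty (fun g hg => hg.elim)
  have hEm : ∀ a : E, algebraMap E K a ∈ mulSub E hy A := const_mulSub hy hfr hRA
  have hym : ∀ θ, y θ ∈ mulSub E hy A := hbθ
  refine ec_of_stage h1 h2 hk V hV A T X hSt (fun c => ?_) fun w' => ?_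
  · rw [IsScalarTower.algebraMap_apply k E K]
    exact hRA _ (hkR c)
  · obtain ⟨P, Q, hQ0, hQ⟩ := hgen w'
    obtain ⟨β, hβ, hβm, hβP⟩ := ph_mem hEm hym P
    obtain ⟨γ, hγ, hγm, hγQ⟩ := ph_mem hEm hym Q
    have hβ0 : β ≠ 0 := by
      obtain ⟨a, m, ha, rfl⟩ := hβm
      exact mul_ne_zero ((map_ne_zero (algebraMap E K)).2 ha) (mo_ne_zero hy m)
    have hγ0 : γ ≠ 0 := by
      obtain ⟨a, m, ha, rfl⟩ := hγm
      exact mul_ne_zero ((map_ne_zero (algebraMap E K)).2 ha) (mo_ne_zero hy m)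
    refine ⟨γ * (β * ph (E := E) y P), A.mul_mem hγ hβP, β * (γ * ph (E := E) y Q),
      A.mul_mem hβ hγQ, mul_ne_zero hβ0 (mul_ne_zero hγ0 hQ0), ?_⟩
    rw [← hQ]
    field_simp

end main

end Pool.Agent.N102.EC
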