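import Mathlib

/-!
Project EC (helper102): existential closedness from regular local rings.
-/

set_option autoImplicit false

universe u

open IsLocalRing

namespace Pool.Agent.N102.EC

/-- A regular local `k`-algebra of dimension one with residue field `k` embeds into the power
series. -/
def S_DVR : Prop :=
  ∀ (k P : Type u) [Field k] [CommRing P] [Algebra k P] [IsRegularLocalRing P],
    ringKrullDim P = (1 : ℕ) → (∀ a : P, ∃ c : k, a - algebraMap k P c ∈ maximalIdeal P) →
    ∃ φ : P →ₐ[k] PowerSeries k, Function.Injective φ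

/-- Reduction of the dimension. -/
def S_QUOT : Prop :=
  ∀ (P : Type u) [CommRing P] [IsRegularLocalRing P] (n : ℕ), ringKrullDim P = (n + 2 : ℕ) →
    ∀ f : P, f ≠ 0 → ∃ y ∈ maximalIdeal P, f ∉ Ideal.span {y} ∧
      IsRegularLocalRing (P ⧸ Ideal.span {y}) ∧
        ringKrullDim (P ⧸ Ideal.span {y}) = (n + 1 : ℕ)

end Pool.Agent.N102.EC
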