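import Pool.Agent.H379R3.Reg
import Pool.Agent.N102.EC.Stm

/-!
Project EC (helper102): existential closedness from regular local rings, assembly.
-/

set_option autoImplicit false
set_option linter.unusedVariables false
set_option linter.unusedSectionVars false

universe u

open IsLocalRing

namespace Pool.Agent.N102.EC

/-- `k` is existentially closed in `F`. -/
def ExClosed (k F : Type u) [Field k] [Field F] [Algebra k F] : Prop :=
  ∀ (n : ℕ) (S : Set (MvPolynomial (Fin n) k)), S.Finite → ∀ a : Fin n → F,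
    (∀ f ∈ S, MvPolynomial.aeval a f = 0) → ∃ b : Fin n → k, ∀ f ∈ S, MvPolynomial.aeval b f = 0

theorem hom_of_regular_dim (h1 : S_DVR.{u}) (h2 : S_QUOT.{u}) (k : Type u) [Field k] (d : ℕ) :
    ∀ (P : Type u) [CommRing P] [Algebra k P] [IsRegularLocalRing P], ringKrullDim P = (d : ℕ) →
    (∀ a : P, ∃ c : k, a - algebraMap k P c ∈ maximalIdeal P) → ∀ f : P, f ≠ 0 →
    ∃ φ : P →ₐ[k] PowerSeries k, φ f ≠ 0 := by
  induction d using Nat.strong_induction_on with
  | _ d ih =>
    intro P _ _ _ hd hres f hf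
    rcases d with _ | _ | n
    · have hm := H379R3.dim_zero_maximalIdeal_eq_bot (B := P) hd
      have hbij : Function.Bijective (Algebra.ofId k P) := by
        constructor
        · exact (algebraMap k P).injective
        · intro a
          obtain ⟨c, hc⟩ := hres a
          rw [hm, Ideal.mem_bot, sub_eq_zero] at hc
          exact ⟨c, hc.symm⟩
      refine ⟨(Algebra.ofId k (PowerSeries k)).comp
        (AlgEquiv.ofBijective (Algebra.ofId k P) hbij).symm.toAlgHom, ?_⟩
      intro h
      have h3 : algebraMap k (PowerSeries k)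
          ((AlgEquiv.ofBijective (Algebra.ofId k P) hbij).symm f) = 0 := h
      have h4 := (map_eq_zero_iff _ (algebraMap k (PowerSeries k)).injective).1 h3
      rw [map_eq_zero_iff _ (AlgEquiv.injective _)] at h4
      exact hf h4
    · obtain ⟨φ, hφ⟩ := h1 k P (by exact_mod_cast hd) hres
      refine ⟨φ, fun h => hf (hφ ?_)⟩
      rw [h, map_zero]
    · obtain ⟨y, hy, hfy, hreg, hdim⟩ := h2 P n (by exact_mod_cast hd) f hf
      have hres' : ∀ a : P ⧸ Ideal.span {y}, ∃ c : k,
          a - algebraMap k (P ⧸ Ideal.span {y}) c ∈ maximalIdeal (P ⧸ Ideal.span {y}) := by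
        intro a
        obtain ⟨a, rfl⟩ := Ideal.Quotient.mk_surjective a
        obtain ⟨c, hc⟩ := hres a
        refine ⟨c, ?_⟩
        rw [← H379R3.map_mk_maximalIdeal]
        have h3 := Ideal.mem_map_of_mem (Ideal.Quotient.mk (Ideal.span {y})) hc
        rw [map_sub] at h3
        exact h3
      obtain ⟨φ, hφ⟩ := ih (n + 1) (by omega) (P ⧸ Ideal.span {y}) (by exact_mod_cast hdim) hres'
        (Ideal.Quotient.mk (Ideal.span {y}) f) (by
          intro h
          exact hfy (Ideal.Quotient.eq_zero_iff_mem.1 h))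
      exact ⟨φ.comp (Ideal.Quotient.mkₐ k (Ideal.span {y})), hφ⟩

/-- A regular local `k`-algebra with residue field `k` has homomorphisms to the power series which
do not kill a given element. -/
theorem hom_of_regular (h1 : S_DVR.{u}) (h2 : S_QUOT.{u}) (k : Type u) [Field k]
    (P : Type u) [CommRing P] [Algebra k P] [IsRegularLocalRing P]
    (hres : ∀ a : P, ∃ c : k, a - algebraMap k P c ∈ maximalIdeal P) (f : P) (hf : f ≠ 0) :
    ∃ φ : P →ₐ[k] PowerSeries k, φ f ≠ 0 := by
  obtain ⟨d, hd⟩ := H379R3.exists_dim_eq (B := P)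
  exact hom_of_regular_dim h1 h2 k d P hd hres f hf

/-- Common denominators. -/
lemma exists_denom {K : Type u} [Field K] (P : Subring K)
    (hfr : ∀ w : K, ∃ a ∈ P, ∃ b ∈ P, b ≠ 0 ∧ w = a * b⁻¹) {n : ℕ} (a : Fin n → K) :
    ∃ D ∈ P, D ≠ 0 ∧ ∀ i, D * a i ∈ P := by
  choose α hα β hβ hβ0 h using hfr
  refine ⟨∏ i, β (a i), P.prod_mem fun i _ => hβ _, Finset.prod_ne_zero_iff.2 fun i _ => hβ0 _,
    fun i => ?_⟩
  classical
  rw [← Finset.mul_prod_erase Finset.univ (fun i => β (a i)) (Finset.mem_univ i)]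
  have h1 : β (a i) * (∏ j ∈ Finset.univ.erase i, β (a j)) * a i =
      (∏ j ∈ Finset.univ.erase i, β (a j)) * (β (a i) * a i) := by ring
  rw [h1]
  refine P.mul_mem (P.prod_mem fun j _ => hβ _) ?_
  have h2 : β (a i) * a i = α (a i) := by
    have h3 : a i * β (a i) = α (a i) := (eq_mul_inv_iff_mul_eq₀ (hβ0 (a i))).1 (h (a i))
    rw [mul_comm, h3]
  rw [h2]
  exact hα _

/-- Existential closedness. -/
theorem ec_of_regular (h1 : S_DVR.{u}) (h2 : S_QUOT.{u}) {k K : Type u} [Field k] [Field K]
    [Algebra k K] (hk : ExClosed k (LaurentSeries k)) (P : Subring K) (hreg : IsRegularLocalRing P)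
    (hkP : ∀ c : k, algebraMap k K c ∈ P)
    (hfr : ∀ w : K, ∃ a ∈ P, ∃ b ∈ P, b ≠ 0 ∧ w = a * b⁻¹)
    (hres : ∀ a : P, ∃ c : k, a - ⟨algebraMap k K c, hkP c⟩ ∈ maximalIdeal P) :
    ExClosed k K := by
  intro n S hS a ha
  obtain ⟨D, hD, hD0, hDa⟩ := exists_denom P hfr a
  let _ : Algebra k P := ((algebraMap k K).codRestrict P hkP).toAlgebra
  obtain ⟨φ, hφ⟩ := hom_of_regular h1 h2 k P hres ⟨D, hD⟩ (by
    intro h
    exact hD0 (congrArg Subtype.val h))
  set D' : P := ⟨D, hD⟩ with hD'
  let ψ : P →+* LaurentSeries k := (algebraMap (PowerSeries k) (LaurentSeries k)).comp φ.toRingHom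
  have hψD : IsUnit (ψ D') := by
    rw [isUnit_iff_ne_zero]
    intro h
    have h3 : algebraMap (PowerSeries k) (LaurentSeries k) (φ D') = 0 := h
    rw [map_eq_zero_iff _ (IsFractionRing.injective (PowerSeries k) (LaurentSeries k))] at h3
    exact hφ h3
  have hιD : IsUnit (P.subtype D') := by
    rw [isUnit_iff_ne_zero]
    exact hD0
  let L := Localization.Away D'
  let Ψ : L →+* LaurentSeries k := IsLocalization.Away.lift D' hψD
  let ι : L →+* K := IsLocalization.Away.lift D' hιD
  have hι : Function.Injective ι := by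
    rw [injective_iff_map_eq_zero]
    intro w hw
    obtain ⟨x, s, rfl⟩ := IsLocalization.exists_mk'_eq (Submonoid.powers D') w
    have h3 : ι (IsLocalization.mk' L x s * algebraMap P L s) = 0 := by
      rw [map_mul, hw, zero_mul]
    rw [IsLocalization.mk'_spec, IsLocalization.Away.lift_eq] at h3
    have h4 : x = 0 := Subtype.ext h3
    rw [h4, IsLocalization.mk'_zero]
  let g : k →+* L := (algebraMap P L).comp (algebraMap k P)
  let a' : Fin n → L := fun i => algebraMap P L ⟨D * a i, hDa i⟩ * IsLocalization.Away.invSelf D'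
  have ha' : ∀ i, ι (a' i) = a i := by
    intro i
    have h3 : ι (algebraMap P L D' * IsLocalization.Away.invSelf D') = 1 := by
      rw [IsLocalization.Away.mul_invSelf, map_one]
    rw [map_mul, IsLocalization.Away.lift_eq] at h3
    have h4 : ι (a' i) = D * a i * ι (IsLocalization.Away.invSelf D') := by
      change ι (_ * _) = _
      rw [map_mul, IsLocalization.Away.lift_eq]
      rfl
    have h5 : D * ι (IsLocalization.Away.invSelf D') = 1 := h3
    rw [h4, mul_comm D, mul_assoc, h5, mul_one]
  obtain ⟨b, hb⟩ := hk n S hS (fun i => Ψ (a' i)) (by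
    intro f hf
    have h3 : MvPolynomial.eval₂ g a' f = 0 := by
      apply hι
      rw [map_zero, MvPolynomial.hom_eval₂]
      have h4 := ha f hf
      rw [MvPolynomial.aeval_def] at h4
      rw [← h4]
      congr 1
      · ext c
        change ι (algebraMap P L (algebraMap k P c)) = _
        rw [IsLocalization.Away.lift_eq]
        rfl
      · funext i
        exact ha' i
    have h4 := congrArg Ψ h3
    rw [map_zero, MvPolynomial.hom_eval₂] at h4
    rw [MvPolynomial.aeval_def, ← h4]
    congr 1
    ext c : 1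
    change _ = Ψ (algebraMap P L (algebraMap k P c))
    rw [IsLocalization.Away.lift_eq]
    change _ = algebraMap (PowerSeries k) (LaurentSeries k) (φ (algebraMap k P c))
    rw [φ.commutes, HahnSeries.algebraMap_apply', LaurentSeries.coe_algebraMap])
  exact ⟨b, hb⟩

end Pool.Agent.N102.EC
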