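import Pool.Agent.N102.EC.Main

set_option autoImplicit false

universe u

namespace Pool.Agent.N102.EC

/-- Large fields are infinite. -/
theorem infinite_of_large {k : Type u} [Field k] (hk : ExClosed k (LaurentSeries k)) :
    Infinite k := by
  classical
  by_contra hfin
  rw [not_infinite_iff_finite] at hfin
  have := Fintype.ofFinite k
  let f : MvPolynomial (Fin 2) k :=
    MvPolynomial.X 1 * (MvPolynomial.X 0 ^ Fintype.card k - MvPolynomial.X 0) - 1
  let T : LaurentSeries k := HahnSeries.single (1 : ℤ) (1 : k)
  have hT : T ^ Fintype.card k - T ≠ 0 := by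
    intro h
    have h1 : T ^ Fintype.card k = T := sub_eq_zero.1 h
    have h2 : T ^ Fintype.card k = HahnSeries.single ((Fintype.card k : ℕ) • (1 : ℤ)) (1 : k) := by
      rw [HahnSeries.single_pow, one_pow]
    rw [h2] at h1
    have h3 := congrArg (fun s : LaurentSeries k => HahnSeries.coeff s 1) h1
    have hc : 1 < Fintype.card k := Fintype.one_lt_card
    have h4 : ((Fintype.card k : ℕ) • (1 : ℤ)) ≠ 1 := by
      rw [nsmul_eq_mul, mul_one]
      omega
    simp only [T] at h3
    rw [HahnSeries.coeff_single_of_ne h4.symm, HahnSeries.coeff_single_same] at h3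
    exact zero_ne_one h3
  obtain ⟨b, hb⟩ := hk 2 {f} (Set.finite_singleton f) ![T, (T ^ Fintype.card k - T)⁻¹] (by
    intro g hg
    rw [Set.mem_singleton_iff.1 hg]
    simp only [f, map_sub, map_mul, map_pow, MvPolynomial.aeval_X, map_one, Matrix.cons_val_zero,
      Matrix.cons_val_one]
    rw [inv_mul_cancel₀ hT, sub_self])
  have h := hb f rfl
  simp only [f, map_sub, map_mul, map_pow, MvPolynomial.aeval_X, map_one] at h
  rw [FiniteField.pow_card, sub_self, mul_zero, zero_sub, neg_eq_zero] at h
  exact one_ne_zero h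

end Pool.Agent.N102.EC
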