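import Pool.Agent.N102.EC.Sys
import Pool.Agent.N98.SS.Stage

/-!
Project EC (helper102): existential closedness in bounded degree, statement.
-/

set_option autoImplicit false

universe u

open Pool.Agent.N98.RW Pool.Agent.N98 Pool.Agent.H176.DT

namespace Pool.Agent.N102.EC

/-- Function fields of bounded degree with a valuation have stages. -/
def S_BD : Prop :=
  ∀ (E K : Type u) [Field E] [Field K] [Algebra E K] [Infinite E] (N r δ : ℕ) (x : Fin N → K),
    IntermediateField.adjoin E (Set.range x) = ⊤ → Algebra.trdeg E K = r → ∀ (C0 : ℕ),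
    (∀ t : ℕ, r.factorial * Module.finrank E (img E x t) ≤ δ * (t + C0) ^ r) →
    ∀ (V : ValuationSubring K),
    (∀ q : ℕ, q.Prime → q ≤ δ ^ 2 ^ r → V.valuation (q : K) = 1) →
    ∀ (R : Subring E), (∀ w : E, ∃ a ∈ R, ∃ b ∈ R, b ≠ 0 ∧ w = a * b⁻¹) →
    (∀ a ∈ R, algebraMap E K a ∈ V) →
    HasF (AdlS (V.comap (algebraMap E K)) R)
      ({V.comap (algebraMap E K)} : Set (ValuationSubring E)) →
    ∃ (A : Subring K) (T : Set K) (n : ℕ) (X : Fin n → K), St V A T X ∧
      (∀ a ∈ R, algebraMap E K a ∈ A) ∧ ∀ w : K, ∃ a ∈ A, ∃ b ∈ A, b ≠ 0 ∧ w = a * b⁻¹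

end Pool.Agent.N102.EC
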